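import Pool.Agent.Helper64.FL.StC

/-! Full list for MP_866009_co: the configurations preHB000, ..., preHB111. -/

set_option autoImplicit false

namespace Pool.Agent.Helper64.FL

open Pool.Agent.Helper64.CT Pool.Agent.Helper64.DT
open Pool.Agent.Helper64.HG (Ovl Model Circ IC HellyCircle ChordModel)

theorem qhb_far {V : Type} {G : SimpleGraph V} {x y u : V} (h : u ∈ KC G x y) :
    x ≠ u ∧ ¬ G.Adj x u := by
  obtain ⟨-, hz, -⟩ := h
  exact ⟨fun e => hz.1 e.symm, hz.2⟩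

theorem qhb_refl {V : Type} {G : SimpleGraph V} {y u : V} (h : u ∈ Far G y) : Comp G y u u :=
  ⟨h, h, SimpleGraph.Reachable.refl _⟩

theorem qhb_pth {V : Type} {G : SimpleGraph V} {a w : V} {l : List V} (h : Pth G a l w)
    (hne : a ≠ w) : IPt G (a :: (l ++ [w])) := by
  rcases h with ⟨h, -⟩ | ⟨-, h⟩
  · exact absurd h hne
  · exact h

theorem qhb_tri {V : Type} {G : SimpleGraph V} {a w : V} {l : List V} (h : Pth G a l w)
    (he : a = w) : l = [] := by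
  rcases h with ⟨-, h⟩ | ⟨h, -⟩
  · exact h
  · exact absurd he h

theorem qhb_00 (hS : ST_SEP) (hB : ST_PTB) {V : Type} (G : SimpleGraph V) (hN : NoP G preCs)
    (x y z n s u u' w f y1 y2 : V) (l1 l2 l3 : List V)
    (e01 : G.Adj x y) (e02 : G.Adj x z) (e12 : G.Adj y z) (e13 : G.Adj y n)
    (hn : n ∈ Far G x) (hn' : n ∈ Far G z)
    (e14 : G.Adj y s) (sx : s ≠ x) (sn : s ≠ n) (sz : s ≠ z) (hus : ¬ G.Adj u s)
    (hu : u ∈ Far G y) (hcu : ¬ Comp G y u u') (hcz : ∀ v, Comp G y u v → ¬ G.Adj z v)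
    (ux : G.Adj u x) (un : G.Adj u n) (u'x : G.Adj u' x) (u'n : G.Adj u' n)
    (u'z : ¬ G.Adj u' z) (hw : (G.Adj w x ∧ ¬ G.Adj w n) ∨ (G.Adj w n ∧ ¬ G.Adj w x))
    (hP : OffP G (KC G y u') (fun v => G.Adj v s) u' l1 f l2 w y1 l3 y2) : False := by
  have hAn := hS V G y u u' hcu
  obtain ⟨-, hPn, -⟩ := hB V G
  have uK : u ∈ KC G y u := qhb_refl hu
  have u'K := hP.aK
  have fK := hP.fK
  have wK := hP.wK
  have l1K := hP.l1K
  have l2K := hP.l2K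
  have nadj : ∀ {s v : V}, G.Adj y s → v ∈ KC G y u' → v ≠ s := by
    intro s v hs hv h
    rw [h] at hv
    exact (qhb_far hv).2 hs
  have nadj' : ∀ {s : V}, G.Adj y s → ∀ {l : List V}, (∀ v ∈ l, v ∈ KC G y u') → s ∉ l :=
    fun hs l hl hm => nadj hs (hl _ hm) rfl
  have yl : ∀ {l : List V}, (∀ v ∈ l, v ∈ KC G y u') → y ∉ l :=
    fun hl hm => (qhb_far (hl _ hm)).1 rfl
  have ul : ∀ {l : List V}, (∀ v ∈ l, v ∈ KC G y u') → u ∉ l :=
    fun hl hm => (hAn u uK u (hl _ hm)).1 rfl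
  have e50 := ux
  have e53 := un
  have e60 := u'x
  have e63 := u'n
  have d30 : n ≠ x ∧ ¬ G.Adj n x := ⟨hn.1, fun h => hn.2 h.symm⟩
  have d32 : n ≠ z ∧ ¬ G.Adj n z := ⟨hn'.1, fun h => hn'.2 h.symm⟩
  have d15 : y ≠ u ∧ ¬ G.Adj y u := ⟨fun h => hu.1 h.symm, hu.2⟩
  have d25 : z ≠ u ∧ ¬ G.Adj z u := ⟨fun h => hu.2 (h ▸ e12), hcz u (qhb_refl hu)⟩
  have d16 := qhb_far u'K
  have d65 : u' ≠ u ∧ ¬ G.Adj u' u :=
    ⟨(hAn u uK u' u'K).1.symm, fun h => (hAn u uK u' u'K).2 h.symm⟩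
  have d17 := qhb_far wK
  have d75 : w ≠ u ∧ ¬ G.Adj w u :=
    ⟨(hAn u uK w wK).1.symm, fun h => (hAn u uK w wK).2 h.symm⟩
  have d62 : u' ≠ z ∧ ¬ G.Adj u' z := ⟨nadj e12 u'K, u'z⟩
  have d18 := qhb_far fK
  have d85 : f ≠ u ∧ ¬ G.Adj f u :=
    ⟨(hAn u uK f fK).1.symm, fun h => (hAn u uK f fK).2 h.symm⟩
  have n72 : w ≠ z := nadj e12 wK
  have n82 : f ≠ z := nadj e12 fK
  have n62 : u' ≠ z := nadj e12 u'K
  have n40 := sx
  have n43 := sn
  have n42 := sz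
  have d54 : u ≠ s ∧ ¬ G.Adj u s := ⟨fun h => hu.2 (h ▸ e14), hus⟩
  obtain ⟨ul1, fl1, -⟩ := hPn u' l1 f hP.p1
  obtain ⟨fl2, wl2, -⟩ := hPn f l2 w hP.p2
  have wl1 : w ∉ l1 := by
    intro hm
    by_cases h : f = w
    · exact fl1 (h ▸ hm)
    · exact (hP.l1w h w hm).1 rfl
  have ul2 : u' ∉ l2 := by
    intro hm
    by_cases h : u' = f
    · exact fl2 (h ▸ hm)
    · exact (hP.al2 h u' hm).1 rfl
  have y1K := hP.yK
  have y2K := hP.y2K
  have l3K := hP.l3K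
  have sp := hP.sep
  obtain ⟨y1l3, y2l3, -⟩ := hPn y1 l3 y2 hP.p3
  have sU := sp u' (Or.inl rfl)
  have sF := sp f (Or.inr (Or.inl rfl))
  have sW := sp w (Or.inr (Or.inr (Or.inl rfl)))
  have sL1 : ∀ v ∈ l1, y1 ≠ v ∧ y2 ≠ v ∧ (y1 ≠ y2 → ¬ G.Adj y1 v) ∧ ∀ u ∈ l3, u ≠ v ∧ ¬ G.Adj u v :=
    fun v hv => sp v (Or.inr (Or.inr (Or.inr (Or.inl hv))))
  have sL2 : ∀ v ∈ l2, y1 ≠ v ∧ y2 ≠ v ∧ (y1 ≠ y2 → ¬ G.Adj y1 v) ∧ ∀ u ∈ l3, u ≠ v ∧ ¬ G.Adj u v :=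
    fun v hv => sp v (Or.inr (Or.inr (Or.inr (Or.inr hv))))
  have ml1x : x ∉ l1 := nadj' e01.symm l1K
  have ml1y : y ∉ l1 := yl l1K
  have ml1z : z ∉ l1 := nadj' e12 l1K
  have ml1n : n ∉ l1 := nadj' e13 l1K
  have ml1u : u ∉ l1 := ul l1K
  have ml1s : s ∉ l1 := nadj' e14 l1K
  have cl1y : ∀ v ∈ l1, ¬ G.Adj y v := fun v hv => (qhb_far (l1K v hv)).2
  have cl1u : ∀ v ∈ l1, ¬ G.Adj u v := fun v hv => (hAn u uK v (l1K v hv)).2
  have ml2x : x ∉ l2 := nadj' e01.symm l2K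
  have ml2y : y ∉ l2 := yl l2K
  have ml2z : z ∉ l2 := nadj' e12 l2K
  have ml2n : n ∉ l2 := nadj' e13 l2K
  have ml2u : u ∉ l2 := ul l2K
  have ml2s : s ∉ l2 := nadj' e14 l2K
  have cl2y : ∀ v ∈ l2, ¬ G.Adj y v := fun v hv => (qhb_far (l2K v hv)).2
  have cl2u : ∀ v ∈ l2, ¬ G.Adj u v := fun v hv => (hAn u uK v (l2K v hv)).2
  have ml3x : x ∉ l3 := nadj' e01.symm l3K
  have ml3y : y ∉ l3 := yl l3K
  have ml3z : z ∉ l3 := nadj' e12 l3K
  have ml3n : n ∉ l3 := nadj' e13 l3K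
  have ml3u : u ∉ l3 := ul l3K
  have ml3s : s ∉ l3 := nadj' e14 l3K
  have cl3y : ∀ v ∈ l3, ¬ G.Adj y v := fun v hv => (qhb_far (l3K v hv)).2
  have cl3u : ∀ v ∈ l3, ¬ G.Adj u v := fun v hv => (hAn u uK v (l3K v hv)).2
  have e94 : G.Adj y1 s := hP.yφ
  have d74 : w ≠ s ∧ ¬ G.Adj w s := ⟨nadj e14 wK, hP.nw⟩
  have d64 : u' ≠ s ∧ ¬ G.Adj u' s := ⟨nadj e14 u'K, hP.nt⟩
  have d84 : f ≠ s ∧ ¬ G.Adj f s := ⟨nadj e14 fK, hP.nf⟩
  have cl1s : ∀ v ∈ l1, ¬ G.Adj s v := fun v hv h => hP.nl1 v hv h.symm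
  have cl2s : ∀ v ∈ l2, ¬ G.Adj s v := fun v hv h => hP.nl2 v hv h.symm
  have cl3s : ∀ v ∈ l3, ¬ G.Adj s v := fun v hv h => hP.l3φ v hv h.symm
  have q_y1y2_y2s : y1 ≠ y2 → y2 ≠ s ∧ ¬ G.Adj y2 s := fun h => ⟨nadj e14 y2K, hP.y2φ h⟩
  have e108 : G.Adj y2 f := hP.y2f
  have d19 := qhb_far y1K
  have d95 : y1 ≠ u ∧ ¬ G.Adj y1 u :=
    ⟨(hAn u uK y1 y1K).1.symm, fun h => (hAn u uK y1 y1K).2 h.symm⟩
  have d110 := qhb_far y2K
  have d105 : y2 ≠ u ∧ ¬ G.Adj y2 u :=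
    ⟨(hAn u uK y2 y2K).1.symm, fun h => (hAn u uK y2 y2K).2 h.symm⟩
  have n92 : y1 ≠ z := nadj e12 y1K
  have n102 : y2 ≠ z := nadj e12 y2K
  have n106 : y2 ≠ u' := sU.2.1
  have n107 : y2 ≠ w := sW.2.1
  have n96 : y1 ≠ u' := sU.1
  have n97 : y1 ≠ w := sW.1
  have n98 : y1 ≠ f := sF.1
  have q_upf_upy2 : u' ≠ f → u' ≠ y2 ∧ ¬ G.Adj u' y2 := fun h => ⟨sU.2.1.symm, fun h' => hP.y2t h h'.symm⟩
  have q_y1y2_y1up : y1 ≠ y2 → y1 ≠ u' ∧ ¬ G.Adj y1 u' := fun h => ⟨sU.1, sU.2.2.1 h⟩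
  have q_y1y2_y1f : y1 ≠ y2 → y1 ≠ f ∧ ¬ G.Adj y1 f := fun h => ⟨sF.1, sF.2.2.1 h⟩
  have q_y1y2_y1w : y1 ≠ y2 → y1 ≠ w ∧ ¬ G.Adj y1 w := fun h => ⟨sW.1, sW.2.2.1 h⟩
  have y1l1 : y1 ∉ l1 := fun h => (sL1 y1 h).1 rfl
  have y2l1 : y2 ∉ l1 := fun h => (sL1 y2 h).2.1 rfl
  have y1l2 : y1 ∉ l2 := fun h => (sL2 y1 h).1 rfl
  have y2l2 : y2 ∉ l2 := fun h => (sL2 y2 h).2.1 rfl
  have upl3 : u' ∉ l3 := fun h => (sU.2.2.2 u' h).1 rfl
  have fl3 : f ∉ l3 := fun h => (sF.2.2.2 f h).1 rfl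
  have wl3 : w ∉ l3 := fun h => (sW.2.2.2 w h).1 rfl
  have cy2l1 : ∀ v ∈ l1, ¬ G.Adj y2 v := hP.y2l
  have cy1l1 : ∀ v ∈ l1, ¬ G.Adj y1 v := by
    intro v hv
    by_cases h : y1 = y2
    · rw [h]; exact hP.y2l v hv
    · exact (sL1 v hv).2.2.1 h
  have cupl3 : ∀ v ∈ l3, ¬ G.Adj u' v := fun v hv h => (sU.2.2.2 v hv).2 h.symm
  have cfl3 : ∀ v ∈ l3, ¬ G.Adj f v := fun v hv h => (sF.2.2.2 v hv).2 h.symm
  have cwl3 : ∀ v ∈ l3, ¬ G.Adj w v := fun v hv h => (sW.2.2.2 v hv).2 h.symm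
  have t3 : y1 = y2 → l3 = [] := qhb_tri hP.p3
  have p3 : y1 ≠ y2 → IPt G (y1 :: (l3 ++ [y2])) := qhb_pth hP.p3
  have q_upf_fw_upw : u' ≠ f → f ≠ w → u' ≠ w ∧ ¬ G.Adj u' w := hP.aw
  have t1 : u' = f → l1 = [] := qhb_tri hP.p1
  have t2 : f = w → l2 = [] := qhb_tri hP.p2
  have p1 : u' ≠ f → IPt G (u' :: (l1 ++ [f])) := qhb_pth hP.p1
  have p2 : f ≠ w → IPt G (f :: (l2 ++ [w])) := qhb_pth hP.p2
  have cw1 : w ≠ f → ∀ v ∈ l1, ¬ G.Adj w v := fun h v hv h' => (hP.l1w h.symm v hv).2 h'.symm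
  have cu2 : u' ≠ f → ∀ v ∈ l2, ¬ G.Adj u' v := fun h v hv => (hP.al2 h v hv).2
  have sp3 : ([l1, l2, l3] : List (List V)).Pairwise
      (fun A B => ∀ x ∈ A, ∀ y ∈ B, x ≠ y ∧ ¬ G.Adj x y) := by
    simp only [List.pairwise_cons, List.mem_cons, List.not_mem_nil, or_false, forall_eq_or_imp,
      forall_eq, List.Pairwise.nil, and_true, false_imp_iff, implies_true]
    refine ⟨⟨hP.l12, ?_⟩, ?_⟩
    · intro u hu v hv
      have h := (sL1 u hu).2.2.2 v hv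
      exact ⟨h.1.symm, fun h' => h.2 h'.symm⟩
    · intro u hu v hv
      have h := (sL2 u hu).2.2.2 v hv
      exact ⟨h.1.symm, fun h' => h.2 h'.symm⟩
  rcases hw with ⟨hw1, hw2⟩ | ⟨hw1, hw2⟩
  · have d73 : w ≠ n ∧ ¬ G.Adj w n := ⟨nadj e13 wK, hw2⟩
    refine hN preHB000 (by simp [preCs]) (fun i => ([x, y, z, n, s, u, u', w, f, y1, y2] : List V).getD i x)
      [l1, l2, l3] ⟨?_, ?_, ?_, ?_, ?_, rfl, ?_, ?_, ?_, ?_, ?_⟩
    · intro v hv; fin_cases hv <;> assumption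
    · intro v hv; fin_cases hv <;> assumption
    · intro v hv; fin_cases hv <;> assumption
    · intro v hv; fin_cases hv
      · intro h; exact q_upf_fw_upw (h (6, 8) (by simp)) (h (8, 7) (by simp))
      · intro h; exact q_y1y2_y2s (h (9, 10) (by simp))
      · intro h; exact q_upf_upy2 (h (6, 8) (by simp))
      · intro h; exact q_y1y2_y1up (h (9, 10) (by simp))
      · intro h; exact q_y1y2_y1f (h (9, 10) (by simp))
      · intro h; exact q_y1y2_y1w (h (9, 10) (by simp))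
    · intro v hv; exact absurd hv (by simp [preHB000])
    · intro v hv; fin_cases hv <;> assumption
    · intro v hv; fin_cases hv <;> assumption
    · intro v hv i hi
      have hi' : i < 11 := hi
      fin_cases hv <;> interval_cases i <;> assumption
    · intro v hv i hi hU h1 h2
      have hi' : i < 11 := hi
      fin_cases hv <;> interval_cases i <;>
        first
        | assumption
        | exact absurd rfl h1
        | exact absurd rfl h2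
        | exact cw1 h2
        | exact cu2 h1
        | exact absurd (by simp) hU
    · exact sp3
  · have d70 : w ≠ x ∧ ¬ G.Adj w x := ⟨nadj e01.symm wK, hw2⟩
    refine hN preHB010 (by simp [preCs]) (fun i => ([x, y, z, n, s, u, u', w, f, y1, y2] : List V).getD i x)
      [l1, l2, l3] ⟨?_, ?_, ?_, ?_, ?_, rfl, ?_, ?_, ?_, ?_, ?_⟩
    · intro v hv; fin_cases hv <;> assumption
    · intro v hv; fin_cases hv <;> assumption
    · intro v hv; fin_cases hv <;> assumption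
    · intro v hv; fin_cases hv
      · intro h; exact q_upf_fw_upw (h (6, 8) (by simp)) (h (8, 7) (by simp))
      · intro h; exact q_y1y2_y2s (h (9, 10) (by simp))
      · intro h; exact q_upf_upy2 (h (6, 8) (by simp))
      · intro h; exact q_y1y2_y1up (h (9, 10) (by simp))
      · intro h; exact q_y1y2_y1f (h (9, 10) (by simp))
      · intro h; exact q_y1y2_y1w (h (9, 10) (by simp))
    · intro v hv; exact absurd hv (by simp [preHB010])
    · intro v hv; fin_cases hv <;> assumption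
    · intro v hv; fin_cases hv <;> assumption
    · intro v hv i hi
      have hi' : i < 11 := hi
      fin_cases hv <;> interval_cases i <;> assumption
    · intro v hv i hi hU h1 h2
      have hi' : i < 11 := hi
      fin_cases hv <;> interval_cases i <;>
        first
        | assumption
        | exact absurd rfl h1
        | exact absurd rfl h2
        | exact cw1 h2
        | exact cu2 h1
        | exact absurd (by simp) hU
    · exact sp3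

theorem qhb_01 (hS : ST_SEP) (hB : ST_PTB) {V : Type} (G : SimpleGraph V) (hN : NoP G preCs)
    (x y z n s u u' w f : V) (l1 l2 : List V)
    (e01 : G.Adj x y) (e02 : G.Adj x z) (e12 : G.Adj y z) (e13 : G.Adj y n)
    (hn : n ∈ Far G x) (hn' : n ∈ Far G z)
    (e14 : G.Adj y s) (sx : s ≠ x) (sn : s ≠ n) (sz : s ≠ z) (hus : ¬ G.Adj u s)
    (hu : u ∈ Far G y) (hcu : ¬ Comp G y u u') (hcz : ∀ v, Comp G y u v → ¬ G.Adj z v)
    (ux : G.Adj u x) (un : G.Adj u n) (u'x : G.Adj u' x) (u'n : G.Adj u' n)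
    (u'z : ¬ G.Adj u' z) (hw : (G.Adj w x ∧ ¬ G.Adj w n) ∨ (G.Adj w n ∧ ¬ G.Adj w x))
    (hP : OnP G (KC G y u') (fun v => G.Adj v s) u' l1 f l2 w) : False := by
  have hAn := hS V G y u u' hcu
  obtain ⟨-, hPn, -⟩ := hB V G
  have uK : u ∈ KC G y u := qhb_refl hu
  have u'K := hP.aK
  have fK := hP.fK
  have wK := hP.wK
  have l1K := hP.l1K
  have l2K := hP.l2K
  have nadj : ∀ {s v : V}, G.Adj y s → v ∈ KC G y u' → v ≠ s := by
    intro s v hs hv h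
    rw [h] at hv
    exact (qhb_far hv).2 hs
  have nadj' : ∀ {s : V}, G.Adj y s → ∀ {l : List V}, (∀ v ∈ l, v ∈ KC G y u') → s ∉ l :=
    fun hs l hl hm => nadj hs (hl _ hm) rfl
  have yl : ∀ {l : List V}, (∀ v ∈ l, v ∈ KC G y u') → y ∉ l :=
    fun hl hm => (qhb_far (hl _ hm)).1 rfl
  have ul : ∀ {l : List V}, (∀ v ∈ l, v ∈ KC G y u') → u ∉ l :=
    fun hl hm => (hAn u uK u (hl _ hm)).1 rfl
  have e50 := ux
  have e53 := un
  have e60 := u'x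
  have e63 := u'n
  have d30 : n ≠ x ∧ ¬ G.Adj n x := ⟨hn.1, fun h => hn.2 h.symm⟩
  have d32 : n ≠ z ∧ ¬ G.Adj n z := ⟨hn'.1, fun h => hn'.2 h.symm⟩
  have d15 : y ≠ u ∧ ¬ G.Adj y u := ⟨fun h => hu.1 h.symm, hu.2⟩
  have d25 : z ≠ u ∧ ¬ G.Adj z u := ⟨fun h => hu.2 (h ▸ e12), hcz u (qhb_refl hu)⟩
  have d16 := qhb_far u'K
  have d65 : u' ≠ u ∧ ¬ G.Adj u' u :=
    ⟨(hAn u uK u' u'K).1.symm, fun h => (hAn u uK u' u'K).2 h.symm⟩
  have d17 := qhb_far wK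
  have d75 : w ≠ u ∧ ¬ G.Adj w u :=
    ⟨(hAn u uK w wK).1.symm, fun h => (hAn u uK w wK).2 h.symm⟩
  have d62 : u' ≠ z ∧ ¬ G.Adj u' z := ⟨nadj e12 u'K, u'z⟩
  have d18 := qhb_far fK
  have d85 : f ≠ u ∧ ¬ G.Adj f u :=
    ⟨(hAn u uK f fK).1.symm, fun h => (hAn u uK f fK).2 h.symm⟩
  have n72 : w ≠ z := nadj e12 wK
  have n82 : f ≠ z := nadj e12 fK
  have n62 : u' ≠ z := nadj e12 u'K
  have n40 := sx
  have n43 := sn
  have n42 := sz
  have d54 : u ≠ s ∧ ¬ G.Adj u s := ⟨fun h => hu.2 (h ▸ e14), hus⟩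
  obtain ⟨ul1, fl1, -⟩ := hPn u' l1 f hP.p1
  obtain ⟨fl2, wl2, -⟩ := hPn f l2 w hP.p2
  have wl1 : w ∉ l1 := by
    intro hm
    by_cases h : f = w
    · exact fl1 (h ▸ hm)
    · exact (hP.l1w h w hm).1 rfl
  have ul2 : u' ∉ l2 := by
    intro hm
    by_cases h : u' = f
    · exact fl2 (h ▸ hm)
    · exact (hP.al2 h u' hm).1 rfl
  have ml1x : x ∉ l1 := nadj' e01.symm l1K
  have ml1y : y ∉ l1 := yl l1K
  have ml1z : z ∉ l1 := nadj' e12 l1K
  have ml1n : n ∉ l1 := nadj' e13 l1K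
  have ml1u : u ∉ l1 := ul l1K
  have ml1s : s ∉ l1 := nadj' e14 l1K
  have cl1y : ∀ v ∈ l1, ¬ G.Adj y v := fun v hv => (qhb_far (l1K v hv)).2
  have cl1u : ∀ v ∈ l1, ¬ G.Adj u v := fun v hv => (hAn u uK v (l1K v hv)).2
  have ml2x : x ∉ l2 := nadj' e01.symm l2K
  have ml2y : y ∉ l2 := yl l2K
  have ml2z : z ∉ l2 := nadj' e12 l2K
  have ml2n : n ∉ l2 := nadj' e13 l2K
  have ml2u : u ∉ l2 := ul l2K
  have ml2s : s ∉ l2 := nadj' e14 l2K
  have cl2y : ∀ v ∈ l2, ¬ G.Adj y v := fun v hv => (qhb_far (l2K v hv)).2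
  have cl2u : ∀ v ∈ l2, ¬ G.Adj u v := fun v hv => (hAn u uK v (l2K v hv)).2
  have e84 : G.Adj f s := hP.ff
  have cl1s : ∀ v ∈ l1, ¬ G.Adj s v := fun v hv h => hP.fl v hv h.symm
  have q_upf_ups : u' ≠ f → u' ≠ s ∧ ¬ G.Adj u' s := fun h => ⟨nadj e14 u'K, hP.ft h⟩
  have q_upf_fw_upw : u' ≠ f → f ≠ w → u' ≠ w ∧ ¬ G.Adj u' w := hP.aw
  have t1 : u' = f → l1 = [] := qhb_tri hP.p1
  have t2 : f = w → l2 = [] := qhb_tri hP.p2
  have p1 : u' ≠ f → IPt G (u' :: (l1 ++ [f])) := qhb_pth hP.p1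
  have p2 : f ≠ w → IPt G (f :: (l2 ++ [w])) := qhb_pth hP.p2
  have cw1 : w ≠ f → ∀ v ∈ l1, ¬ G.Adj w v := fun h v hv h' => (hP.l1w h.symm v hv).2 h'.symm
  have cu2 : u' ≠ f → ∀ v ∈ l2, ¬ G.Adj u' v := fun h v hv => (hP.al2 h v hv).2
  have sp2 : ([l1, l2] : List (List V)).Pairwise
      (fun A B => ∀ x ∈ A, ∀ y ∈ B, x ≠ y ∧ ¬ G.Adj x y) := by
    simp only [List.pairwise_cons, List.mem_cons, List.not_mem_nil, or_false, forall_eq_or_imp,
      forall_eq, List.Pairwise.nil, and_true, false_imp_iff, implies_true]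
    exact hP.l12
  rcases hw with ⟨hw1, hw2⟩ | ⟨hw1, hw2⟩
  · have d73 : w ≠ n ∧ ¬ G.Adj w n := ⟨nadj e13 wK, hw2⟩
    refine hN preHB001 (by simp [preCs]) (fun i => ([x, y, z, n, s, u, u', w, f] : List V).getD i x)
      [l1, l2] ⟨?_, ?_, ?_, ?_, ?_, rfl, ?_, ?_, ?_, ?_, ?_⟩
    · intro v hv; fin_cases hv <;> assumption
    · intro v hv; fin_cases hv <;> assumption
    · intro v hv; fin_cases hv <;> assumption
    · intro v hv; fin_cases hv
      · intro h; exact q_upf_ups (h (6, 8) (by simp))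
      · intro h; exact q_upf_fw_upw (h (6, 8) (by simp)) (h (8, 7) (by simp))
    · intro v hv; exact absurd hv (by simp [preHB001])
    · intro v hv; fin_cases hv <;> assumption
    · intro v hv; fin_cases hv <;> assumption
    · intro v hv i hi
      have hi' : i < 9 := hi
      fin_cases hv <;> interval_cases i <;> assumption
    · intro v hv i hi hU h1 h2
      have hi' : i < 9 := hi
      fin_cases hv <;> interval_cases i <;>
        first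
        | assumption
        | exact absurd rfl h1
        | exact absurd rfl h2
        | exact cw1 h2
        | exact cu2 h1
        | exact absurd (by simp) hU
    · exact sp2
  · have d70 : w ≠ x ∧ ¬ G.Adj w x := ⟨nadj e01.symm wK, hw2⟩
    refine hN preHB011 (by simp [preCs]) (fun i => ([x, y, z, n, s, u, u', w, f] : List V).getD i x)
      [l1, l2] ⟨?_, ?_, ?_, ?_, ?_, rfl, ?_, ?_, ?_, ?_, ?_⟩
    · intro v hv; fin_cases hv <;> assumption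
    · intro v hv; fin_cases hv <;> assumption
    · intro v hv; fin_cases hv <;> assumption
    · intro v hv; fin_cases hv
      · intro h; exact q_upf_ups (h (6, 8) (by simp))
      · intro h; exact q_upf_fw_upw (h (6, 8) (by simp)) (h (8, 7) (by simp))
    · intro v hv; exact absurd hv (by simp [preHB011])
    · intro v hv; fin_cases hv <;> assumption
    · intro v hv; fin_cases hv <;> assumption
    · intro v hv i hi
      have hi' : i < 9 := hi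
      fin_cases hv <;> interval_cases i <;> assumption
    · intro v hv i hi hU h1 h2
      have hi' : i < 9 := hi
      fin_cases hv <;> interval_cases i <;>
        first
        | assumption
        | exact absurd rfl h1
        | exact absurd rfl h2
        | exact cw1 h2
        | exact cu2 h1
        | exact absurd (by simp) hU
    · exact sp2

theorem qhb_10 (hS : ST_SEP) (hB : ST_PTB) {V : Type} (G : SimpleGraph V) (hN : NoP G preCs)
    (x y z n u u' w f y1 y2 : V) (l1 l2 l3 : List V)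
    (e01 : G.Adj x y) (e02 : G.Adj x z) (e12 : G.Adj y z) (e13 : G.Adj y n)
    (hn : n ∈ Far G x) (hn' : n ∈ Far G z)
    (hu : u ∈ Far G y) (hcu : ¬ Comp G y u u') (hcz : ∀ v, Comp G y u v → ¬ G.Adj z v)
    (ux : G.Adj u x) (un : G.Adj u n) (u'x : G.Adj u' x) (u'n : G.Adj u' n)
    (u'z : ¬ G.Adj u' z) (hw : (G.Adj w x ∧ ¬ G.Adj w n) ∨ (G.Adj w n ∧ ¬ G.Adj w x))
    (hP : OffP G (KC G y u') (fun v => G.Adj v z) u' l1 f l2 w y1 l3 y2) : False := by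
  have hAn := hS V G y u u' hcu
  obtain ⟨-, hPn, -⟩ := hB V G
  have uK : u ∈ KC G y u := qhb_refl hu
  have u'K := hP.aK
  have fK := hP.fK
  have wK := hP.wK
  have l1K := hP.l1K
  have l2K := hP.l2K
  have nadj : ∀ {s v : V}, G.Adj y s → v ∈ KC G y u' → v ≠ s := by
    intro s v hs hv h
    rw [h] at hv
    exact (qhb_far hv).2 hs
  have nadj' : ∀ {s : V}, G.Adj y s → ∀ {l : List V}, (∀ v ∈ l, v ∈ KC G y u') → s ∉ l :=
    fun hs l hl hm => nadj hs (hl _ hm) rfl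
  have yl : ∀ {l : List V}, (∀ v ∈ l, v ∈ KC G y u') → y ∉ l :=
    fun hl hm => (qhb_far (hl _ hm)).1 rfl
  have ul : ∀ {l : List V}, (∀ v ∈ l, v ∈ KC G y u') → u ∉ l :=
    fun hl hm => (hAn u uK u (hl _ hm)).1 rfl
  have e50 := ux
  have e53 := un
  have e60 := u'x
  have e63 := u'n
  have d30 : n ≠ x ∧ ¬ G.Adj n x := ⟨hn.1, fun h => hn.2 h.symm⟩
  have d32 : n ≠ z ∧ ¬ G.Adj n z := ⟨hn'.1, fun h => hn'.2 h.symm⟩
  have d15 : y ≠ u ∧ ¬ G.Adj y u := ⟨fun h => hu.1 h.symm, hu.2⟩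
  have d25 : z ≠ u ∧ ¬ G.Adj z u := ⟨fun h => hu.2 (h ▸ e12), hcz u (qhb_refl hu)⟩
  have d16 := qhb_far u'K
  have d65 : u' ≠ u ∧ ¬ G.Adj u' u :=
    ⟨(hAn u uK u' u'K).1.symm, fun h => (hAn u uK u' u'K).2 h.symm⟩
  have d17 := qhb_far wK
  have d75 : w ≠ u ∧ ¬ G.Adj w u :=
    ⟨(hAn u uK w wK).1.symm, fun h => (hAn u uK w wK).2 h.symm⟩
  have d62 : u' ≠ z ∧ ¬ G.Adj u' z := ⟨nadj e12 u'K, u'z⟩
  have d18 := qhb_far fK
  have d85 : f ≠ u ∧ ¬ G.Adj f u :=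
    ⟨(hAn u uK f fK).1.symm, fun h => (hAn u uK f fK).2 h.symm⟩
  have n72 : w ≠ z := nadj e12 wK
  have n82 : f ≠ z := nadj e12 fK
  have n62 : u' ≠ z := nadj e12 u'K
  obtain ⟨ul1, fl1, -⟩ := hPn u' l1 f hP.p1
  obtain ⟨fl2, wl2, -⟩ := hPn f l2 w hP.p2
  have wl1 : w ∉ l1 := by
    intro hm
    by_cases h : f = w
    · exact fl1 (h ▸ hm)
    · exact (hP.l1w h w hm).1 rfl
  have ul2 : u' ∉ l2 := by
    intro hm
    by_cases h : u' = f
    · exact fl2 (h ▸ hm)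
    · exact (hP.al2 h u' hm).1 rfl
  have y1K := hP.yK
  have y2K := hP.y2K
  have l3K := hP.l3K
  have sp := hP.sep
  obtain ⟨y1l3, y2l3, -⟩ := hPn y1 l3 y2 hP.p3
  have sU := sp u' (Or.inl rfl)
  have sF := sp f (Or.inr (Or.inl rfl))
  have sW := sp w (Or.inr (Or.inr (Or.inl rfl)))
  have sL1 : ∀ v ∈ l1, y1 ≠ v ∧ y2 ≠ v ∧ (y1 ≠ y2 → ¬ G.Adj y1 v) ∧ ∀ u ∈ l3, u ≠ v ∧ ¬ G.Adj u v :=
    fun v hv => sp v (Or.inr (Or.inr (Or.inr (Or.inl hv))))
  have sL2 : ∀ v ∈ l2, y1 ≠ v ∧ y2 ≠ v ∧ (y1 ≠ y2 → ¬ G.Adj y1 v) ∧ ∀ u ∈ l3, u ≠ v ∧ ¬ G.Adj u v :=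
    fun v hv => sp v (Or.inr (Or.inr (Or.inr (Or.inr hv))))
  have ml1x : x ∉ l1 := nadj' e01.symm l1K
  have ml1y : y ∉ l1 := yl l1K
  have ml1z : z ∉ l1 := nadj' e12 l1K
  have ml1n : n ∉ l1 := nadj' e13 l1K
  have ml1u : u ∉ l1 := ul l1K
  have cl1y : ∀ v ∈ l1, ¬ G.Adj y v := fun v hv => (qhb_far (l1K v hv)).2
  have cl1u : ∀ v ∈ l1, ¬ G.Adj u v := fun v hv => (hAn u uK v (l1K v hv)).2
  have ml2x : x ∉ l2 := nadj' e01.symm l2K
  have ml2y : y ∉ l2 := yl l2K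
  have ml2z : z ∉ l2 := nadj' e12 l2K
  have ml2n : n ∉ l2 := nadj' e13 l2K
  have ml2u : u ∉ l2 := ul l2K
  have cl2y : ∀ v ∈ l2, ¬ G.Adj y v := fun v hv => (qhb_far (l2K v hv)).2
  have cl2u : ∀ v ∈ l2, ¬ G.Adj u v := fun v hv => (hAn u uK v (l2K v hv)).2
  have ml3x : x ∉ l3 := nadj' e01.symm l3K
  have ml3y : y ∉ l3 := yl l3K
  have ml3z : z ∉ l3 := nadj' e12 l3K
  have ml3n : n ∉ l3 := nadj' e13 l3K
  have ml3u : u ∉ l3 := ul l3K
  have cl3y : ∀ v ∈ l3, ¬ G.Adj y v := fun v hv => (qhb_far (l3K v hv)).2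
  have cl3u : ∀ v ∈ l3, ¬ G.Adj u v := fun v hv => (hAn u uK v (l3K v hv)).2
  have e82 : G.Adj y1 z := hP.yφ
  have d62' : w ≠ z ∧ ¬ G.Adj w z := ⟨nadj e12 wK, hP.nw⟩
  have d72 : f ≠ z ∧ ¬ G.Adj f z := ⟨nadj e12 fK, hP.nf⟩
  have cl1z : ∀ v ∈ l1, ¬ G.Adj z v := fun v hv h => hP.nl1 v hv h.symm
  have cl2z : ∀ v ∈ l2, ¬ G.Adj z v := fun v hv h => hP.nl2 v hv h.symm
  have cl3z : ∀ v ∈ l3, ¬ G.Adj z v := fun v hv h => hP.l3φ v hv h.symm
  have q_y1y2_y2z : y1 ≠ y2 → y2 ≠ z ∧ ¬ G.Adj y2 z := fun h => ⟨nadj e12 y2K, hP.y2φ h⟩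
  have e108 : G.Adj y2 f := hP.y2f
  have d19 := qhb_far y1K
  have d95 : y1 ≠ u ∧ ¬ G.Adj y1 u :=
    ⟨(hAn u uK y1 y1K).1.symm, fun h => (hAn u uK y1 y1K).2 h.symm⟩
  have d110 := qhb_far y2K
  have d105 : y2 ≠ u ∧ ¬ G.Adj y2 u :=
    ⟨(hAn u uK y2 y2K).1.symm, fun h => (hAn u uK y2 y2K).2 h.symm⟩
  have n92 : y1 ≠ z := nadj e12 y1K
  have n102 : y2 ≠ z := nadj e12 y2K
  have n106 : y2 ≠ u' := sU.2.1
  have n107 : y2 ≠ w := sW.2.1
  have n96 : y1 ≠ u' := sU.1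
  have n97 : y1 ≠ w := sW.1
  have n98 : y1 ≠ f := sF.1
  have q_upf_upy2 : u' ≠ f → u' ≠ y2 ∧ ¬ G.Adj u' y2 := fun h => ⟨sU.2.1.symm, fun h' => hP.y2t h h'.symm⟩
  have q_y1y2_y1up : y1 ≠ y2 → y1 ≠ u' ∧ ¬ G.Adj y1 u' := fun h => ⟨sU.1, sU.2.2.1 h⟩
  have q_y1y2_y1f : y1 ≠ y2 → y1 ≠ f ∧ ¬ G.Adj y1 f := fun h => ⟨sF.1, sF.2.2.1 h⟩
  have q_y1y2_y1w : y1 ≠ y2 → y1 ≠ w ∧ ¬ G.Adj y1 w := fun h => ⟨sW.1, sW.2.2.1 h⟩
  have y1l1 : y1 ∉ l1 := fun h => (sL1 y1 h).1 rfl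
  have y2l1 : y2 ∉ l1 := fun h => (sL1 y2 h).2.1 rfl
  have y1l2 : y1 ∉ l2 := fun h => (sL2 y1 h).1 rfl
  have y2l2 : y2 ∉ l2 := fun h => (sL2 y2 h).2.1 rfl
  have upl3 : u' ∉ l3 := fun h => (sU.2.2.2 u' h).1 rfl
  have fl3 : f ∉ l3 := fun h => (sF.2.2.2 f h).1 rfl
  have wl3 : w ∉ l3 := fun h => (sW.2.2.2 w h).1 rfl
  have cy2l1 : ∀ v ∈ l1, ¬ G.Adj y2 v := hP.y2l
  have cy1l1 : ∀ v ∈ l1, ¬ G.Adj y1 v := by
    intro v hv
    by_cases h : y1 = y2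
    · rw [h]; exact hP.y2l v hv
    · exact (sL1 v hv).2.2.1 h
  have cupl3 : ∀ v ∈ l3, ¬ G.Adj u' v := fun v hv h => (sU.2.2.2 v hv).2 h.symm
  have cfl3 : ∀ v ∈ l3, ¬ G.Adj f v := fun v hv h => (sF.2.2.2 v hv).2 h.symm
  have cwl3 : ∀ v ∈ l3, ¬ G.Adj w v := fun v hv h => (sW.2.2.2 v hv).2 h.symm
  have t3 : y1 = y2 → l3 = [] := qhb_tri hP.p3
  have p3 : y1 ≠ y2 → IPt G (y1 :: (l3 ++ [y2])) := qhb_pth hP.p3
  have q_upf_fw_upw : u' ≠ f → f ≠ w → u' ≠ w ∧ ¬ G.Adj u' w := hP.aw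
  have t1 : u' = f → l1 = [] := qhb_tri hP.p1
  have t2 : f = w → l2 = [] := qhb_tri hP.p2
  have p1 : u' ≠ f → IPt G (u' :: (l1 ++ [f])) := qhb_pth hP.p1
  have p2 : f ≠ w → IPt G (f :: (l2 ++ [w])) := qhb_pth hP.p2
  have cw1 : w ≠ f → ∀ v ∈ l1, ¬ G.Adj w v := fun h v hv h' => (hP.l1w h.symm v hv).2 h'.symm
  have cu2 : u' ≠ f → ∀ v ∈ l2, ¬ G.Adj u' v := fun h v hv => (hP.al2 h v hv).2
  have sp3 : ([l1, l2, l3] : List (List V)).Pairwise
      (fun A B => ∀ x ∈ A, ∀ y ∈ B, x ≠ y ∧ ¬ G.Adj x y) := by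
    simp only [List.pairwise_cons, List.mem_cons, List.not_mem_nil, or_false, forall_eq_or_imp,
      forall_eq, List.Pairwise.nil, and_true, false_imp_iff, implies_true]
    refine ⟨⟨hP.l12, ?_⟩, ?_⟩
    · intro u hu v hv
      have h := (sL1 u hu).2.2.2 v hv
      exact ⟨h.1.symm, fun h' => h.2 h'.symm⟩
    · intro u hu v hv
      have h := (sL2 u hu).2.2.2 v hv
      exact ⟨h.1.symm, fun h' => h.2 h'.symm⟩
  rcases hw with ⟨hw1, hw2⟩ | ⟨hw1, hw2⟩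
  · have d73 : w ≠ n ∧ ¬ G.Adj w n := ⟨nadj e13 wK, hw2⟩
    refine hN preHB100 (by simp [preCs]) (fun i => ([x, y, z, n, u, u', w, f, y1, y2] : List V).getD i x)
      [l1, l2, l3] ⟨?_, ?_, ?_, ?_, ?_, rfl, ?_, ?_, ?_, ?_, ?_⟩
    · intro v hv; fin_cases hv <;> assumption
    · intro v hv; fin_cases hv <;> assumption
    · intro v hv; fin_cases hv <;> assumption
    · intro v hv; fin_cases hv
      · intro h; exact q_upf_fw_upw (h (5, 7) (by simp)) (h (7, 6) (by simp))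
      · intro h; exact q_y1y2_y2z (h (8, 9) (by simp))
      · intro h; exact q_upf_upy2 (h (5, 7) (by simp))
      · intro h; exact q_y1y2_y1up (h (8, 9) (by simp))
      · intro h; exact q_y1y2_y1f (h (8, 9) (by simp))
      · intro h; exact q_y1y2_y1w (h (8, 9) (by simp))
    · intro v hv; exact absurd hv (by simp [preHB100])
    · intro v hv; fin_cases hv <;> assumption
    · intro v hv; fin_cases hv <;> assumption
    · intro v hv i hi
      have hi' : i < 10 := hi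
      fin_cases hv <;> interval_cases i <;> assumption
    · intro v hv i hi hU h1 h2
      have hi' : i < 10 := hi
      fin_cases hv <;> interval_cases i <;>
        first
        | assumption
        | exact absurd rfl h1
        | exact absurd rfl h2
        | exact cw1 h2
        | exact cu2 h1
        | exact absurd (by simp) hU
    · exact sp3
  · have d70 : w ≠ x ∧ ¬ G.Adj w x := ⟨nadj e01.symm wK, hw2⟩
    refine hN preHB110 (by simp [preCs]) (fun i => ([x, y, z, n, u, u', w, f, y1, y2] : List V).getD i x)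
      [l1, l2, l3] ⟨?_, ?_, ?_, ?_, ?_, rfl, ?_, ?_, ?_, ?_, ?_⟩
    · intro v hv; fin_cases hv <;> assumption
    · intro v hv; fin_cases hv <;> assumption
    · intro v hv; fin_cases hv <;> assumption
    · intro v hv; fin_cases hv
      · intro h; exact q_upf_fw_upw (h (5, 7) (by simp)) (h (7, 6) (by simp))
      · intro h; exact q_y1y2_y2z (h (8, 9) (by simp))
      · intro h; exact q_upf_upy2 (h (5, 7) (by simp))
      · intro h; exact q_y1y2_y1up (h (8, 9) (by simp))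
      · intro h; exact q_y1y2_y1f (h (8, 9) (by simp))
      · intro h; exact q_y1y2_y1w (h (8, 9) (by simp))
    · intro v hv; exact absurd hv (by simp [preHB110])
    · intro v hv; fin_cases hv <;> assumption
    · intro v hv; fin_cases hv <;> assumption
    · intro v hv i hi
      have hi' : i < 10 := hi
      fin_cases hv <;> interval_cases i <;> assumption
    · intro v hv i hi hU h1 h2
      have hi' : i < 10 := hi
      fin_cases hv <;> interval_cases i <;>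
        first
        | assumption
        | exact absurd rfl h1
        | exact absurd rfl h2
        | exact cw1 h2
        | exact cu2 h1
        | exact absurd (by simp) hU
    · exact sp3

theorem qhb_11 (hS : ST_SEP) (hB : ST_PTB) {V : Type} (G : SimpleGraph V) (hN : NoP G preCs)
    (x y z n u u' w f : V) (l1 l2 : List V)
    (e01 : G.Adj x y) (e02 : G.Adj x z) (e12 : G.Adj y z) (e13 : G.Adj y n)
    (hn : n ∈ Far G x) (hn' : n ∈ Far G z)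
    (hu : u ∈ Far G y) (hcu : ¬ Comp G y u u') (hcz : ∀ v, Comp G y u v → ¬ G.Adj z v)
    (ux : G.Adj u x) (un : G.Adj u n) (u'x : G.Adj u' x) (u'n : G.Adj u' n)
    (u'z : ¬ G.Adj u' z) (hw : (G.Adj w x ∧ ¬ G.Adj w n) ∨ (G.Adj w n ∧ ¬ G.Adj w x))
    (hP : OnP G (KC G y u') (fun v => G.Adj v z) u' l1 f l2 w) : False := by
  have hAn := hS V G y u u' hcu
  obtain ⟨-, hPn, -⟩ := hB V G
  have uK : u ∈ KC G y u := qhb_refl hu
  have u'K := hP.aK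
  have fK := hP.fK
  have wK := hP.wK
  have l1K := hP.l1K
  have l2K := hP.l2K
  have nadj : ∀ {s v : V}, G.Adj y s → v ∈ KC G y u' → v ≠ s := by
    intro s v hs hv h
    rw [h] at hv
    exact (qhb_far hv).2 hs
  have nadj' : ∀ {s : V}, G.Adj y s → ∀ {l : List V}, (∀ v ∈ l, v ∈ KC G y u') → s ∉ l :=
    fun hs l hl hm => nadj hs (hl _ hm) rfl
  have yl : ∀ {l : List V}, (∀ v ∈ l, v ∈ KC G y u') → y ∉ l :=
    fun hl hm => (qhb_far (hl _ hm)).1 rfl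
  have ul : ∀ {l : List V}, (∀ v ∈ l, v ∈ KC G y u') → u ∉ l :=
    fun hl hm => (hAn u uK u (hl _ hm)).1 rfl
  have e50 := ux
  have e53 := un
  have e60 := u'x
  have e63 := u'n
  have d30 : n ≠ x ∧ ¬ G.Adj n x := ⟨hn.1, fun h => hn.2 h.symm⟩
  have d32 : n ≠ z ∧ ¬ G.Adj n z := ⟨hn'.1, fun h => hn'.2 h.symm⟩
  have d15 : y ≠ u ∧ ¬ G.Adj y u := ⟨fun h => hu.1 h.symm, hu.2⟩
  have d25 : z ≠ u ∧ ¬ G.Adj z u := ⟨fun h => hu.2 (h ▸ e12), hcz u (qhb_refl hu)⟩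
  have d16 := qhb_far u'K
  have d65 : u' ≠ u ∧ ¬ G.Adj u' u :=
    ⟨(hAn u uK u' u'K).1.symm, fun h => (hAn u uK u' u'K).2 h.symm⟩
  have d17 := qhb_far wK
  have d75 : w ≠ u ∧ ¬ G.Adj w u :=
    ⟨(hAn u uK w wK).1.symm, fun h => (hAn u uK w wK).2 h.symm⟩
  have d62 : u' ≠ z ∧ ¬ G.Adj u' z := ⟨nadj e12 u'K, u'z⟩
  have d18 := qhb_far fK
  have d85 : f ≠ u ∧ ¬ G.Adj f u :=
    ⟨(hAn u uK f fK).1.symm, fun h => (hAn u uK f fK).2 h.symm⟩
  have n72 : w ≠ z := nadj e12 wK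
  have n82 : f ≠ z := nadj e12 fK
  have n62 : u' ≠ z := nadj e12 u'K
  obtain ⟨ul1, fl1, -⟩ := hPn u' l1 f hP.p1
  obtain ⟨fl2, wl2, -⟩ := hPn f l2 w hP.p2
  have wl1 : w ∉ l1 := by
    intro hm
    by_cases h : f = w
    · exact fl1 (h ▸ hm)
    · exact (hP.l1w h w hm).1 rfl
  have ul2 : u' ∉ l2 := by
    intro hm
    by_cases h : u' = f
    · exact fl2 (h ▸ hm)
    · exact (hP.al2 h u' hm).1 rfl
  have ml1x : x ∉ l1 := nadj' e01.symm l1K
  have ml1y : y ∉ l1 := yl l1K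
  have ml1z : z ∉ l1 := nadj' e12 l1K
  have ml1n : n ∉ l1 := nadj' e13 l1K
  have ml1u : u ∉ l1 := ul l1K
  have cl1y : ∀ v ∈ l1, ¬ G.Adj y v := fun v hv => (qhb_far (l1K v hv)).2
  have cl1u : ∀ v ∈ l1, ¬ G.Adj u v := fun v hv => (hAn u uK v (l1K v hv)).2
  have ml2x : x ∉ l2 := nadj' e01.symm l2K
  have ml2y : y ∉ l2 := yl l2K
  have ml2z : z ∉ l2 := nadj' e12 l2K
  have ml2n : n ∉ l2 := nadj' e13 l2K
  have ml2u : u ∉ l2 := ul l2K
  have cl2y : ∀ v ∈ l2, ¬ G.Adj y v := fun v hv => (qhb_far (l2K v hv)).2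
  have cl2u : ∀ v ∈ l2, ¬ G.Adj u v := fun v hv => (hAn u uK v (l2K v hv)).2
  have e72 : G.Adj f z := hP.ff
  have n57 : u' ≠ f := fun h => u'z (h ▸ e72)
  have cl1z : ∀ v ∈ l1, ¬ G.Adj z v := fun v hv h => hP.fl v hv h.symm
  have q_upf_fw_upw : u' ≠ f → f ≠ w → u' ≠ w ∧ ¬ G.Adj u' w := hP.aw
  have t1 : u' = f → l1 = [] := qhb_tri hP.p1
  have t2 : f = w → l2 = [] := qhb_tri hP.p2
  have p1 : u' ≠ f → IPt G (u' :: (l1 ++ [f])) := qhb_pth hP.p1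
  have p2 : f ≠ w → IPt G (f :: (l2 ++ [w])) := qhb_pth hP.p2
  have cw1 : w ≠ f → ∀ v ∈ l1, ¬ G.Adj w v := fun h v hv h' => (hP.l1w h.symm v hv).2 h'.symm
  have cu2 : u' ≠ f → ∀ v ∈ l2, ¬ G.Adj u' v := fun h v hv => (hP.al2 h v hv).2
  have sp2 : ([l1, l2] : List (List V)).Pairwise
      (fun A B => ∀ x ∈ A, ∀ y ∈ B, x ≠ y ∧ ¬ G.Adj x y) := by
    simp only [List.pairwise_cons, List.mem_cons, List.not_mem_nil, or_false, forall_eq_or_imp,
      forall_eq, List.Pairwise.nil, and_true, false_imp_iff, implies_true]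
    exact hP.l12
  rcases hw with ⟨hw1, hw2⟩ | ⟨hw1, hw2⟩
  · have d73 : w ≠ n ∧ ¬ G.Adj w n := ⟨nadj e13 wK, hw2⟩
    refine hN preHB101 (by simp [preCs]) (fun i => ([x, y, z, n, u, u', w, f] : List V).getD i x)
      [l1, l2] ⟨?_, ?_, ?_, ?_, ?_, rfl, ?_, ?_, ?_, ?_, ?_⟩
    · intro v hv; fin_cases hv <;> assumption
    · intro v hv; fin_cases hv <;> assumption
    · intro v hv; fin_cases hv <;> assumption
    · intro v hv; fin_cases hv
      · intro h; exact q_upf_fw_upw (h (5, 7) (by simp)) (h (7, 6) (by simp))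
    · intro v hv; exact absurd hv (by simp [preHB101])
    · intro v hv; fin_cases hv <;> assumption
    · intro v hv; fin_cases hv <;> assumption
    · intro v hv i hi
      have hi' : i < 8 := hi
      fin_cases hv <;> interval_cases i <;> assumption
    · intro v hv i hi hU h1 h2
      have hi' : i < 8 := hi
      fin_cases hv <;> interval_cases i <;>
        first
        | assumption
        | exact absurd rfl h1
        | exact absurd rfl h2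
        | exact cw1 h2
        | exact cu2 h1
        | exact absurd (by simp) hU
    · exact sp2
  · have d70 : w ≠ x ∧ ¬ G.Adj w x := ⟨nadj e01.symm wK, hw2⟩
    refine hN preHB111 (by simp [preCs]) (fun i => ([x, y, z, n, u, u', w, f] : List V).getD i x)
      [l1, l2] ⟨?_, ?_, ?_, ?_, ?_, rfl, ?_, ?_, ?_, ?_, ?_⟩
    · intro v hv; fin_cases hv <;> assumption
    · intro v hv; fin_cases hv <;> assumption
    · intro v hv; fin_cases hv <;> assumption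
    · intro v hv; fin_cases hv
      · intro h; exact q_upf_fw_upw (h (5, 7) (by simp)) (h (7, 6) (by simp))
    · intro v hv; exact absurd hv (by simp [preHB111])
    · intro v hv; fin_cases hv <;> assumption
    · intro v hv; fin_cases hv <;> assumption
    · intro v hv i hi
      have hi' : i < 8 := hi
      fin_cases hv <;> interval_cases i <;> assumption
    · intro v hv i hi hU h1 h2
      have hi' : i < 8 := hi
      fin_cases hv <;> interval_cases i <;>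
        first
        | assumption
        | exact absurd rfl h1
        | exact absurd rfl h2
        | exact cw1 h2
        | exact cu2 h1
        | exact absurd (by simp) hU
    · exact sp2

theorem st_QHB (hS : ST_SEP) (hB : ST_PTB) : ST_QHB := by
  intro V G hN x y z n s u u' l1 f l2 w e01 e02 e12 e13 hn hn' e14 sx sn hu hcu hcz ux un hus u'x
    u'n u'z hw h
  by_cases hsz : s = z
  · subst hsz
    rcases h with h | ⟨y0, l3, y', h⟩
    · exact qhb_11 hS hB G hN x y s n u u' w f l1 l2 e01 e02 e12 e13 hn hn' hu hcu hcz ux un u'x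
        u'n u'z hw h
    · exact qhb_10 hS hB G hN x y s n u u' w f y0 y' l1 l2 l3 e01 e02 e12 e13 hn hn' hu hcu hcz ux
        un u'x u'n u'z hw h
  · rcases h with h | ⟨y0, l3, y', h⟩
    · exact qhb_01 hS hB G hN x y z n s u u' w f l1 l2 e01 e02 e12 e13 hn hn' e14 sx sn hsz hus
        hu hcu hcz ux un u'x u'n u'z hw h
    · exact qhb_00 hS hB G hN x y z n s u u' w f y0 y' l1 l2 l3 e01 e02 e12 e13 hn hn' e14 sx sn
        hsz hus hu hcu hcz ux un u'x u'n u'z hw h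

end Pool.Agent.Helper64.FL
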